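import Pool.Agent.N556.CQ.Stm

/-!
# Project CQ (helper556), leaf CPTB: compactness (Blaschke selection)
-/

set_option autoImplicit false

namespace Pool.Agent.N973.CQ
open MeasureTheory Set Filter Topology TopologicalSpace Pool.Agent.N556.CQ

theorem isCompact_Box : IsCompact Box := by
  have : Box = Icc (-1 : ℝ) 1 ×ˢ Icc (-1 : ℝ) 1 := by
    ext x; simp only [Box, mem_ofPred_eq, mem_prod, mem_Icc, abs_le]
  rw [this]
  exact isCompact_Icc.prod isCompact_Icc

/-- Blaschke selection -/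
theorem selection (Ks : ℕ → Set P) (hc : ∀ n, IsCompact (Ks n)) (hn : ∀ n, (Ks n).Nonempty)
    (hB : ∀ n, Ks n ⊆ Box) :
    ∃ (K : Set P) (φ : ℕ → ℕ), StrictMono φ ∧ IsCompact K ∧ K.Nonempty ∧
      ∀ e : ℝ, 0 < e → ∀ᶠ n in atTop, (∀ x ∈ Ks (φ n), ∃ y ∈ K, dist x y < e) ∧
        (∀ y ∈ K, ∃ x ∈ Ks (φ n), dist y x < e) := by
  have : CompactSpace Box := isCompact_iff_compactSpace.1 isCompact_Box
  have hcb : ∀ n, IsCompact ((↑) ⁻¹' Ks n : Set Box) := fun n =>
    ((hc n).isClosed.preimage continuous_subtype_val).isCompact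
  have hnb : ∀ n, ((↑) ⁻¹' Ks n : Set Box).Nonempty := fun n => by
    obtain ⟨x, hx⟩ := hn n
    exact ⟨⟨x, hB n hx⟩, hx⟩
  let F : ℕ → NonemptyCompacts Box := fun n => ⟨⟨_, hcb n⟩, hnb n⟩
  obtain ⟨K', -, φ, hφ, hlim⟩ := (isCompact_univ (X := NonemptyCompacts Box)).tendsto_subseq
    (x := F) (fun n => mem_univ _)
  refine ⟨(↑) '' (K' : Set Box), φ, hφ, K'.isCompact.image continuous_subtype_val,
    K'.nonempty.image _, ?_⟩
  intro e he
  have h1 := (Metric.tendsto_atTop.1 hlim) e he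
  obtain ⟨N, hN⟩ := h1
  filter_upwards [eventually_ge_atTop N] with n hnN
  have h2 := hN n hnN
  rw [Metric.NonemptyCompacts.dist_eq] at h2
  have hfin : Metric.hausdorffEDist (((F ∘ φ) n : NonemptyCompacts Box) : Set Box) (K' : Set Box) ≠ ⊤ :=
    Metric.hausdorffEDist_ne_top_of_nonempty_of_bounded ((F ∘ φ) n).nonempty K'.nonempty
      ((F ∘ φ) n).isCompact.isBounded K'.isCompact.isBounded
  constructor
  · intro x hx
    obtain ⟨y, hy, hd⟩ := Metric.exists_dist_lt_of_hausdorffDist_lt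
      (x := (⟨x, hB _ hx⟩ : Box)) (s := (((F ∘ φ) n : NonemptyCompacts Box) : Set Box)) hx h2 hfin
    exact ⟨y, ⟨y, hy, rfl⟩, hd⟩
  · rintro _ ⟨y, hy, rfl⟩
    obtain ⟨x, hx, hd⟩ := Metric.exists_dist_lt_of_hausdorffDist_lt'
      (y := y) hy h2 hfin
    refine ⟨x, hx, ?_⟩
    rw [dist_comm]; exact hd

theorem convex_lim {K : Set P} (hK : IsClosed K)
    (h : ∀ e : ℝ, 0 < e → ∃ L : Set P, Convex ℝ L ∧ (∀ x ∈ L, ∃ y ∈ K, dist x y < e) ∧
      (∀ y ∈ K, ∃ x ∈ L, dist y x < e)) : Convex ℝ K := by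
  intro x hx y hy a b ha hb hab
  rw [← hK.closure_eq, Metric.mem_closure_iff]
  intro e he
  obtain ⟨L, hL, h1, h2⟩ := h (e / 2) (by positivity)
  obtain ⟨x', hx', dx⟩ := h2 x hx
  obtain ⟨y', hy', dy⟩ := h2 y hy
  obtain ⟨z, hz, dz⟩ := h1 _ (hL hx' hy' ha hb hab)
  refine ⟨z, hz, ?_⟩
  have h3 : dist (a • x + b • y) (a • x' + b • y') ≤ e / 2 := by
    calc dist (a • x + b • y) (a • x' + b • y') ≤ dist (a • x) (a • x') + dist (b • y) (b • y') :=
          dist_add_add_le _ _ _ _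
      _ = a * dist x x' + b * dist y y' := by
          rw [dist_smul₀, dist_smul₀, Real.norm_of_nonneg ha, Real.norm_of_nonneg hb]
      _ ≤ a * (e / 2) + b * (e / 2) := by
          gcongr
      _ = e / 2 := by rw [← add_mul, hab, one_mul]
  calc dist (a • x + b • y) z ≤ dist (a • x + b • y) (a • x' + b • y') + dist (a • x' + b • y') z :=
        dist_triangle _ _ _
    _ < e / 2 + e / 2 := add_lt_add_of_le_of_lt h3 dz
    _ = e := by ring

theorem vol_lim {K : Set P} (hK : IsCompact K) {A : ENNReal}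
    (h : ∀ e : ℝ, 0 < e → ∃ L : Set P, A ≤ volume L ∧ (∀ x ∈ L, ∃ y ∈ K, dist x y < e)) :
    A ≤ volume K := by
  have h1 := (tendsto_measure_cthickening_of_isCompact (μ := (volume : Measure P)) hK).mono_left
    (nhdsWithin_le_nhds (s := Ioi (0 : ℝ)))
  refine ge_of_tendsto h1 ?_
  filter_upwards [self_mem_nhdsWithin] with e he
  obtain ⟨L, hA, hL⟩ := h e he
  refine hA.trans (measure_mono ?_)
  intro x hx
  obtain ⟨y, hy, d⟩ := hL x hx
  exact Metric.mem_cthickening_of_dist_le x y e K hy d.le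

theorem dilate {K L : Set P} {a b c d p : P} {r t s : ℝ} (hK : Convex ℝ K) (hab : K ⊆ hull a b c d)
    (hs : volume (hull a b c d) ≤ ENNReal.ofReal s) (hr : Metric.ball p r ⊆ K) (ht : 0 < t)
    (hL : ∀ x ∈ L, ∃ k ∈ K, dist x k < t * r) : Cov L ((1 + t) ^ 2 * s) := by
  have ht1 : (0 : ℝ) < 1 + t := by linarith
  let T : P →ᵃ[ℝ] P := AffineMap.homothety p (1 + t)
  have himg : T '' hull a b c d = hull (T a) (T b) (T c) (T d) := by
    unfold hull
    rw [AffineMap.image_convexHull]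
    simp [image_insert_eq]
  refine ⟨T a, T b, T c, T d, ?_, ?_⟩
  · rw [← himg]
    intro x hx
    obtain ⟨k, hk, dk⟩ := hL x hx
    have hq : p + t⁻¹ • (x - k) ∈ K := by
      apply hr
      rw [mem_ball_iff_norm, add_sub_cancel_left, norm_smul, Real.norm_of_nonneg (by positivity),
        inv_mul_lt_iff₀ ht, ← dist_eq_norm]
      exact dk
    have hw : (1 / (1 + t)) • k + (t / (1 + t)) • (p + t⁻¹ • (x - k)) ∈ K :=
      hK hk hq (by positivity) (by positivity) (by field_simp)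
    refine ⟨_, hab hw, ?_⟩
    simp only [T, AffineMap.homothety_apply, vsub_eq_sub, vadd_eq_add]
    ext
    · simp only [Prod.fst_add, Prod.smul_fst, Prod.fst_sub, smul_eq_mul]
      field_simp
      ring
    · simp only [Prod.snd_add, Prod.smul_snd, Prod.snd_sub, smul_eq_mul]
      field_simp
      ring
  · rw [← himg]
    change volume (AffineMap.homothety p (1 + t) '' hull a b c d) ≤ _
    rw [MeasureTheory.Measure.addHaar_image_homothety]
    have h2 : Module.finrank ℝ P = 2 := by simp [P]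
    rw [h2, abs_of_nonneg (by positivity), ENNReal.ofReal_mul (by positivity)]
    gcongr

theorem interior_ne {K : Set P} (hc : IsCompact K) (hK : Convex ℝ K) (hv : 0 < volume K) :
    ∃ (p : P) (r : ℝ), 0 < r ∧ Metric.ball p r ⊆ K := by
  have hne : (interior K).Nonempty := by
    by_contra h
    rw [not_nonempty_iff_eq_empty] at h
    have h1 := hK.addHaar_frontier (volume : Measure P)
    rw [frontier, h, sdiff_empty, hc.isClosed.closure_eq] at h1
    exact hv.ne' h1
  obtain ⟨p, hp⟩ := hne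
  obtain ⟨r, hr, hb⟩ := Metric.isOpen_iff.1 isOpen_interior p hp
  exact ⟨p, r, hr, hb.trans interior_subset⟩

theorem cov_mono {K : Set P} {s s' : ℝ} (h : Cov K s) (hs : s ≤ s') : Cov K s' := by
  obtain ⟨a, b, c, d, h1, h2⟩ := h
  exact ⟨a, b, c, d, h1, h2.trans (ENNReal.ofReal_le_ofReal hs)⟩

theorem numbers {V s : ℝ} (hV : 2 ≤ V) (hs0 : 0 ≤ s) (hs : s < Real.sqrt 2 * V) :
    ∃ e t : ℝ, 0 < e ∧ 0 < t ∧ e < V ∧ e < Real.sqrt 2 ∧
      (1 + t) ^ 2 * s ≤ (Real.sqrt 2 - e) * (V - e) := by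
  set q := Real.sqrt 2 with hq
  have hq1 : 1 ≤ q := by
    rw [hq, Real.one_le_sqrt]; norm_num
  set g := q * V - s with hg
  have hg0 : 0 < g := by linarith
  have hden : 0 < 4 * (q + V) := by linarith
  refine ⟨min (1 / 2) (g / (4 * (q + V))), min 1 (g / (8 * (s + 1))), ?_, ?_, ?_, ?_, ?_⟩
  · positivity
  · positivity
  · exact (min_le_left _ _).trans_lt (by linarith)
  · exact (min_le_left _ _).trans_lt (by linarith)
  · set e := min (1 / 2) (g / (4 * (q + V))) with he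
    set t := min 1 (g / (8 * (s + 1))) with ht
    have he0 : 0 < e := by positivity
    have ht0 : 0 < t := by positivity
    have he1 : e * (4 * (q + V)) ≤ g := by
      have := min_le_right (1 / 2) (g / (4 * (q + V)))
      rw [← he, le_div_iff₀ hden] at this
      exact this
    have ht1 : t ≤ 1 := min_le_left _ _
    have ht2 : t * (8 * (s + 1)) ≤ g := by
      have := min_le_right 1 (g / (8 * (s + 1)))
      rw [← ht, le_div_iff₀ (by linarith)] at this
      exact this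
    nlinarith [mul_nonneg ht0.le hs0, mul_nonneg (mul_nonneg ht0.le hs0) (sub_nonneg.2 ht1),
      sq_nonneg e]

theorem cptb (hA : ∀ K : Set P, IsCompact K → Convex ℝ K → 0 < volume K → ∀ A : ENNReal,
      A < volume K → ∃ e : ℝ, 0 < e ∧ ∀ L : Set P, IsCompact L → Convex ℝ L →
        K ⊆ Metric.cthickening e L → A ≤ volume L) : S_CPT := by
  intro hG
  by_contra hcon
  push Not at hcon
  have hn1 : ∀ n : ℕ, (0 : ℝ) < 1 / ((n : ℝ) + 1) := fun n => by positivity
  choose Ks hKc hKv hKB hK2 hKn using fun n : ℕ =>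
    hcon (Real.sqrt 2 - 1 / ((n : ℝ) + 1)) (by linarith [hn1 n])
  have hne : ∀ n, (Ks n).Nonempty := fun n => by
    rw [nonempty_iff_ne_empty]
    intro h
    have := hK2 n
    rw [h, measure_empty] at this
    simp at this
  obtain ⟨K, φ, hφ, hc, -, happ⟩ := selection Ks hKc hne hKB
  have hconv : Convex ℝ K := convex_lim hc.isClosed fun e he => by
    obtain ⟨n, hn⟩ := (happ e he).exists
    exact ⟨_, hKv _, hn.1, hn.2⟩
  have hvol : 2 ≤ volume K := vol_lim hc fun e he => by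
    obtain ⟨n, hn⟩ := (happ e he).exists
    exact ⟨_, hK2 _, hn.1⟩
  have hfin : volume K ≠ ⊤ := hc.measure_lt_top.ne
  obtain ⟨s', ⟨a, b, c, d, hab, hs'⟩, hlt⟩ := hG K hc hconv (lt_of_lt_of_le (by norm_num) hvol)
  obtain ⟨p, r, hr, hball⟩ := interior_ne hc hconv (lt_of_lt_of_le (by norm_num) hvol)
  set V := (volume K).toReal with hV
  have hKV : volume K = ENNReal.ofReal V := (ENNReal.ofReal_toReal hfin).symm
  have hV2 : 2 ≤ V := by
    rw [hKV] at hvol
    have : ENNReal.ofReal 2 ≤ ENNReal.ofReal V := by simpa using hvol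
    rwa [ENNReal.ofReal_le_ofReal_iff ENNReal.toReal_nonneg] at this
  set s := max s' 0 with hs
  have hs0 : 0 ≤ s := le_max_right _ _
  have hss : ENNReal.ofReal s = ENNReal.ofReal s' := by
    rw [hs, ENNReal.ofReal_max, ENNReal.ofReal_zero]; simp
  rw [← hss] at hs' hlt
  rw [hKV, ← ENNReal.ofReal_mul (Real.sqrt_nonneg 2)] at hlt
  have hlt' : s < Real.sqrt 2 * V := (ENNReal.ofReal_lt_ofReal_iff_of_nonneg hs0).1 hlt
  obtain ⟨e, t, he, ht, heV, heq, hnum⟩ := numbers hV2 hs0 hlt'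
  obtain ⟨e1, he1, hA1⟩ := hA K hc hconv (lt_of_lt_of_le (by norm_num) hvol)
    (ENNReal.ofReal (V - e)) (by
      rw [hKV]
      exact (ENNReal.ofReal_lt_ofReal_iff (by linarith)).2 (by linarith))
  have ev1 := happ (t * r) (by positivity)
  have ev2 := happ e1 he1
  have ev3 : ∀ᶠ n : ℕ in atTop, 1 / ((n : ℝ) + 1) < e :=
    (tendsto_one_div_add_atTop_nhds_zero_nat (𝕜 := ℝ)).eventually_lt_const he
  obtain ⟨n, ⟨h1, h2⟩, h3⟩ := ((ev1.and ev2).and ev3).exists
  have hcov : Cov (Ks (φ n)) ((1 + t) ^ 2 * s) := dilate hconv hab hs' hball ht h1.1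
  have hvn : ENNReal.ofReal (V - e) ≤ volume (Ks (φ n)) := by
    refine hA1 _ (hKc _) (hKv _) ?_
    intro y hy
    obtain ⟨x, hx, dx⟩ := h2.2 y hy
    exact Metric.mem_cthickening_of_dist_le y x e1 _ hx dx.le
  have hvn' : V - e ≤ (volume (Ks (φ n))).toReal := by
    rw [← ENNReal.ofReal_le_iff_le_toReal (hKc _).measure_lt_top.ne]
    exact hvn
  have h4 : 1 / ((φ n : ℝ) + 1) ≤ e := by
    refine le_trans ?_ h3.le
    have : (n : ℝ) ≤ φ n := by exact_mod_cast hφ.id_le n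
    gcongr
  refine hKn (φ n) (cov_mono hcov (hnum.trans ?_))
  have h5 : Real.sqrt 2 - e ≤ Real.sqrt 2 - 1 / ((φ n : ℝ) + 1) := by linarith
  exact mul_le_mul h5 hvn' (by linarith) (by linarith)

end Pool.Agent.N973.CQ
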